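import Mathlib

namespace Pool.Agent.Results.MP_2b20db_nt.Infinite

/-- Differences of complementary divisor pairs of `n`. -/
def Dstar (n : ℕ) : Set ℤ := {d | ∃ a b : ℕ, 0 < a ∧ 0 < b ∧ a * b = n ∧ d = |(a : ℤ) - b|}

/-- The `Δ` property. -/
def HasDelta (n : ℕ) : Prop :=
  ∃ x ∈ Dstar n, ∃ y ∈ Dstar n, x ≠ 0 ∧ y ≠ 0 ∧ x + y ∈ Dstar n

/-- `Δ`-primitive numbers. -/
def Primitive (n : ℕ) : Prop :=
  HasDelta n ∧ ¬ ∃ α m : ℕ, 2 ≤ α ∧ 2 ≤ m ∧ n = α ^ 2 * m ∧ HasDelta m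

theorem fam (l A B C D : ℕ) (hl : 0 < l) (hA : 0 < A) (hB : 0 < B) (hC : 0 < C) (hD : 0 < D)
    (h1 : C * D < l * A * B) (h2 : A * B < C * D)
    (h3 : ((l * B * C) ^ 2 : ℤ) - (A * D) ^ 2 =
      ((l * A * B) ^ 2 - (C * D) ^ 2) + l * ((C * D) ^ 2 - (A * B) ^ 2)) :
    HasDelta ((l * A * B * C * D) ^ 2) := by
  have k1 : (0 : ℤ) < (l * A * B) ^ 2 - (C * D) ^ 2 := by
    have : ((C * D : ℕ) : ℤ) < (l * A * B : ℕ) := by exact_mod_cast h1
    push_cast at this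
    have : (0 : ℤ) ≤ C * D := by positivity
    nlinarith
  have k2 : (0 : ℤ) < l * ((C * D) ^ 2 - (A * B) ^ 2) := by
    have : ((A * B : ℕ) : ℤ) < (C * D : ℕ) := by exact_mod_cast h2
    push_cast at this
    have : (0 : ℤ) ≤ A * B := by positivity
    have : (0 : ℤ) < (C * D) ^ 2 - (A * B) ^ 2 := by nlinarith
    positivity
  refine ⟨_, ⟨(l * A * B) ^ 2, (C * D) ^ 2, by positivity, by positivity, by ring, ?_⟩,
    _, ⟨l * (C * D) ^ 2, l * (A * B) ^ 2, by positivity, by positivity, by ring, ?_⟩, k1.ne', k2.ne',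
    ⟨(l * B * C) ^ 2, (A * D) ^ 2, by positivity, by positivity, by ring, ?_⟩⟩
  · push_cast
    rw [abs_of_pos k1]
  · push_cast
    rw [← mul_sub, abs_of_pos k2]
  · push_cast
    rw [h3, abs_of_pos (by linarith)]

theorem not_one : ¬ HasDelta 1 := by
  rintro ⟨x, ⟨a, b, _, _, h, rfl⟩, _, _, h0, _⟩
  rw [Nat.eq_one_of_mul_eq_one_right h, Nat.eq_one_of_mul_eq_one_left h] at h0
  simp at h0

theorem descend (k : ℕ) : 0 < k → HasDelta (k ^ 2) → ∃ j, 0 < j ∧ j ∣ k ∧ Primitive (j ^ 2) := by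
  induction k using Nat.strong_induction_on with
  | _ k ih =>
    intro hk h
    by_cases hp : Primitive (k ^ 2)
    · exact ⟨k, hk, dvd_rfl, hp⟩
    · obtain ⟨α, m, h1, h2, h3, h4⟩ := not_not.1 (fun hh => hp ⟨h, hh⟩)
      obtain ⟨j, rfl⟩ : α ∣ k := (Nat.pow_dvd_pow_iff two_ne_zero).1 ⟨m, h3⟩
      have hj : 0 < j := Nat.pos_of_mul_pos_left hk
      have : m = j ^ 2 := by
        rw [mul_pow] at h3
        exact (Nat.eq_of_mul_eq_mul_left (by positivity) h3).symm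
      subst this
      obtain ⟨i, i1, i2, i3⟩ := ih j (by nlinarith) hj h4
      exact ⟨i, i1, i2.mul_left _, i3⟩

theorem result : {k : ℕ | 0 < k ∧ Primitive (k ^ 2)}.Infinite := by
  intro hf
  obtain ⟨M, hM⟩ := hf.bddAbove
  obtain ⟨y, hy2, hy⟩ : ∃ y : ℕ, 2 ≤ y ∧ ∀ j, 0 < j → j ≤ M → j ∣ y :=
    ⟨2 * M.factorial, by have := M.factorial_pos; omega,
      fun j h1 h2 => (Nat.dvd_factorial h1 h2).mul_left _⟩
  obtain ⟨t, rfl⟩ : ∃ t, y = t + 2 := ⟨y - 2, by omega⟩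
  have h := fam (4 * (t + 2) + 1) (16 * t ^ 3 + 96 * t ^ 2 + 188 * t + 119)
    (16 * (t + 2) ^ 3 + 16 * (t + 2) ^ 2 + 4 * (t + 2) + 1)
    (16 * (t + 2) ^ 3 + 16 * (t + 2) ^ 2 + 8 * (t + 2) + 1)
    (48 * (t + 2) ^ 3 + 32 * (t + 2) ^ 2 + 8 * (t + 2) + 1) (by positivity) (by positivity)
    (by positivity) (by positivity) (by positivity) (by ring_nf; omega) (by ring_nf; omega)
    (by push_cast; ring)
  obtain ⟨j, j1, j2, j3⟩ := descend _ (by positivity) h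
  have j4 := hy j j1 (hM ⟨j1, j3⟩)
  have : j = 1 := by
    have a : (j : ℤ) ∣ ((t + 2 : ℕ) : ℤ) := by exact_mod_cast j4
    have b := Int.natCast_dvd_natCast.2 j2
    generalize hs : ((t + 2 : ℕ) : ℤ) = s at a
    have ht : (t : ℤ) = s - 2 := by push_cast at hs; linarith
    push_cast at b
    rw [ht] at b
    have c : (j : ℤ) ∣ 1 := by
      rw [← ZMod.intCast_zmod_eq_zero_iff_dvd] at a b ⊢
      push_cast at b ⊢
      rw [a] at b
      linear_combination (-1 : ZMod j) * b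
    exact Nat.eq_one_of_dvd_one (by exact_mod_cast c)
  subst this
  exact not_one j3.1

end Pool.Agent.Results.MP_2b20db_nt.Infinite
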